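import Pool.Agent.PDM.Stmts

/-!
# PDM, row SIZ
-/

set_option autoImplicit false

namespace Pool.Agent.PDM.H41

open Pool.Agent.PDN Pool.Agent.PDM

theorem card_tau {t : ℕ} (τ : Ins t) : τ.card ≤ t ^ 3 := by
  refine (Finset.card_le_univ τ).trans ?_
  rw [Fintype.card_prod, Fintype.card_prod, Fintype.card_fin]
  exact (by ring : t * (t * t) = t ^ 3).le

theorem vA_le_sA {t : ℕ} (k : Fin 3) (i : Fin t) : vA k i ≤ sA t := by
  unfold sA
  refine (Finset.single_le_sum (f := fun i => vA k i) (fun _ _ => Nat.zero_le _)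
    (Finset.mem_univ i)).trans ?_
  exact Finset.single_le_sum (f := fun k : Fin 3 => ∑ i : Fin t, vA k i)
    (fun _ _ => Nat.zero_le _) (Finset.mem_univ k)

theorem dgr_le {t : ℕ} (τ : Ins t) (v : Big τ) :
    dgr v ≤ sc τ * (4 + sC τ + (4 * t + 4) * vD t) := by
  have hs : 400 ≤ sc τ := by
    unfold sc
    omega
  have hD : vD t ≤ (4 * t + 4) * vD t := Nat.le_mul_of_pos_left _ (by omega)
  rcases v with x | p | x | k | u
  · show sc τ * vA x.1 x.2 ≤ _
    refine Nat.mul_le_mul_left _ ?_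
    have h1 := vA_le_sA x.1 x.2
    have h2 : vD t = 2 * sA t + 9 := rfl
    omega
  · show sc τ * vC p.1 - 10 ≤ _
    refine (Nat.sub_le _ _).trans (Nat.mul_le_mul_left _ ?_)
    have h1 : vC p.1 ≤ sC τ :=
      Finset.single_le_sum (f := vC) (fun _ _ => Nat.zero_le _) p.2
    omega
  · show sc τ * (if x.1 = 0 then 1 else 3) + (if x.2 then 3 else 0) ≤ _
    have h1 : sc τ * (if x.1 = 0 then 1 else 3) + (if x.2 then 3 else 0) ≤ sc τ * 4 := by
      split_ifs <;> omega
    refine h1.trans (Nat.mul_le_mul_left _ ?_)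
    omega
  · show sc τ * vD t ≤ _
    refine Nat.mul_le_mul_left _ ?_
    omega
  · show sc τ * vZ τ - (14 * τ.card + 2 * t + 20) ≤ _
    refine (Nat.sub_le _ _).trans (Nat.mul_le_mul_left _ ?_)
    unfold vZ
    omega

theorem code_le {t : ℕ} (k : Fin 3) (i : Fin t) : code k i ≤ 1280 * (t + 1) ^ 12 := by
  have hu : 1 ≤ t + 1 := by omega
  have hb : bs t = 4 * (t + 1) ^ 2 := rfl
  have hb1 : 1 ≤ bs t := by
    rw [hb]
    exact Nat.succ_le_of_lt (by positivity)
  have hk : (k : ℕ) ≤ 2 := by omega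
  have hi : (i : ℕ) + 1 ≤ t + 1 := by omega
  unfold code
  calc bs t ^ (2 * (k : ℕ)) * ((i : ℕ) + 1) + bs t ^ (2 * (k : ℕ) + 1) * ((i : ℕ) + 1) ^ 2
      ≤ bs t ^ 4 * (t + 1) + bs t ^ 5 * (t + 1) ^ 2 := by
        refine add_le_add (Nat.mul_le_mul (Nat.pow_le_pow_right hb1 (by omega)) hi)
          (Nat.mul_le_mul (Nat.pow_le_pow_right hb1 (by omega)) (Nat.pow_le_pow_left hi 2))
    _ = 256 * (t + 1) ^ 9 + 1024 * (t + 1) ^ 12 := by
        rw [hb]
        ring
    _ ≤ 256 * (t + 1) ^ 12 + 1024 * (t + 1) ^ 12 := by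
        have := Nat.pow_le_pow_right (n := t + 1) hu (show 9 ≤ 12 by norm_num)
        omega
    _ = 1280 * (t + 1) ^ 12 := by ring

theorem vA_le {t : ℕ} (k : Fin 3) (i : Fin t) : vA k i ≤ 294912 * (t + 1) ^ 13 := by
  have h1 := code_le k i
  have h2 : off t = 32768 * (t + 1) ^ 13 := by
    unfold off bs
    ring
  have h3 := Nat.pow_le_pow_right (n := t + 1) (by omega) (show 12 ≤ 13 by norm_num)
  unfold vA
  rw [h2]
  omega

theorem sA_le (t : ℕ) : sA t ≤ 884736 * (t + 1) ^ 14 := by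
  unfold sA
  calc ∑ k : Fin 3, ∑ i : Fin t, vA k i ≤ ∑ k : Fin 3, ∑ i : Fin t, 294912 * (t + 1) ^ 13 :=
        Finset.sum_le_sum fun k _ => Finset.sum_le_sum fun i _ => vA_le k i
    _ = 3 * (t * (294912 * (t + 1) ^ 13)) := by
        rw [Finset.sum_const, Finset.sum_const, Finset.card_univ, Finset.card_univ,
          Fintype.card_fin, Fintype.card_fin, smul_eq_mul, smul_eq_mul]
    _ ≤ 3 * ((t + 1) * (294912 * (t + 1) ^ 13)) := by
        refine Nat.mul_le_mul_left _ (Nat.mul_le_mul_right _ (by omega))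
    _ = 884736 * (t + 1) ^ 14 := by ring

theorem sC_le {t : ℕ} (τ : Ins t) : sC τ ≤ 884736 * (t + 1) ^ 16 := by
  unfold sC
  calc ∑ p ∈ τ, vC p ≤ ∑ p ∈ τ, 884736 * (t + 1) ^ 13 := by
        refine Finset.sum_le_sum fun p _ => ?_
        unfold vC
        have h1 := vA_le 0 p.1
        have h2 := vA_le 1 p.2.1
        have h3 := vA_le 2 p.2.2
        omega
    _ = τ.card * (884736 * (t + 1) ^ 13) := by rw [Finset.sum_const, smul_eq_mul]
    _ ≤ (t + 1) ^ 3 * (884736 * (t + 1) ^ 13) := by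
        refine Nat.mul_le_mul_right _ ((card_tau τ).trans ?_)
        exact Nat.pow_le_pow_left (by omega) 3
    _ = 884736 * (t + 1) ^ 16 := by ring

theorem sc_le {t : ℕ} (τ : Ins t) : sc τ ≤ 600 * (t + 1) ^ 3 := by
  have h1 := card_tau τ
  have h2 : t ^ 3 + t + 2 ≤ 3 * (t + 1) ^ 3 := by nlinarith [sq_nonneg t]
  unfold sc
  omega

theorem siz (num : NumStmt) : SizStmt := by
  intro t τ
  obtain ⟨n1, n2, n3', n4', n5⟩ := num t τ
  set b := Fintype.card (Big τ) with hb
  -- the sum over the large vertices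
  have hm : ∑ v : Big τ, (if mrk v then 1 else 0) = 6 * t + 6 := by
    rw [← n2, Nat.card_eq_fintype_card, Fintype.card_subtype, Finset.card_filter]
  have hS : ∑ v : Big τ, (2 * dgr v - (if mrk v then 1 else 0)) + (6 * t + 6) =
      2 * ∑ v : Big τ, dgr v := by
    rw [← hm, ← Finset.sum_add_distrib, Finset.mul_sum]
    refine Finset.sum_congr rfl fun v _ => ?_
    have := n4' v
    split_ifs <;> omega
  have hcard : (seqm τ).card = b + n4 τ + n3 τ := by
    unfold seqm
    rw [Multiset.card_add, Multiset.card_add, Multiset.card_map, Multiset.card_replicate,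
      Multiset.card_replicate]
    rfl
  have hsum : (seqm τ).sum = ∑ v : Big τ, (2 * dgr v - (if mrk v then 1 else 0)) + n4 τ * 8 +
      n3 τ * 3 := by
    unfold seqm
    rw [Multiset.sum_add, Multiset.sum_add, Multiset.sum_replicate, Multiset.sum_replicate,
      smul_eq_mul, smul_eq_mul]
    rfl
  have h4 : n4 τ = sc τ * (4 + sC τ + (4 * t + 4) * vD t) - (15 * τ.card + 22 * t + 28) := rfl
  have hsc : sc τ = 200 * (t + τ.card + 2) := rfl
  have hX : 4 * sc τ ≤ sc τ * (4 + sC τ + (4 * t + 4) * vD t) := by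
    rw [Nat.mul_comm 4]
    refine Nat.mul_le_mul_left _ ?_
    omega
  refine ⟨?_, ?_, ?_⟩
  · rw [hcard, hsum]
    omega
  · rw [hcard]
    have g1 : n4 τ ≤ 600 * (t + 1) ^ 3 * (7962664 * (t + 1) ^ 16) := by
      rw [h4]
      refine (Nat.sub_le _ _).trans (Nat.mul_le_mul (sc_le τ) ?_)
      have e1 := sC_le τ
      have e2 : vD t ≤ 1769481 * (t + 1) ^ 14 := by
        have := sA_le t
        have e3 : 1 ≤ (t + 1) ^ 14 := Nat.one_le_pow _ _ (by omega)
        unfold vD
        omega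
      have e4 : (4 * t + 4) * vD t ≤ 7077924 * (t + 1) ^ 15 := by
        calc (4 * t + 4) * vD t ≤ (4 * t + 4) * (1769481 * (t + 1) ^ 14) :=
              Nat.mul_le_mul_left _ e2
          _ = 7077924 * (t + 1) ^ 15 := by ring
      have e5 := Nat.pow_le_pow_right (n := t + 1) (by omega) (show 15 ≤ 16 by norm_num)
      have e6 : 1 ≤ (t + 1) ^ 16 := Nat.one_le_pow _ _ (by omega)
      omega
    have g2 : 600 * (t + 1) ^ 3 * (7962664 * (t + 1) ^ 16) = 4777598400 * (t + 1) ^ 19 := by ring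
    have g3 : b ≤ 10 * (t + 1) ^ 19 := by
      have e1 := card_tau τ
      have e2 : 7 * t + t ^ 3 + 9 ≤ 10 * (t + 1) ^ 3 := by nlinarith [sq_nonneg t]
      have e3 := Nat.pow_le_pow_right (n := t + 1) (by omega) (show 3 ≤ 19 by norm_num)
      omega
    omega
  · intro x hx
    rw [hcard]
    unfold seqm at hx
    rw [Multiset.mem_add, Multiset.mem_add, Multiset.mem_map] at hx
    rcases hx with (⟨v, _, rfl⟩ | hx) | hx
    · have h1 := dgr_le τ v
      have h2 := n4' v
      generalize sc τ * (4 + sC τ + (4 * t + 4) * vD t) = X at *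
      split_ifs <;> omega
    · have := Multiset.eq_of_mem_replicate hx
      omega
    · have := Multiset.eq_of_mem_replicate hx
      omega

end Pool.Agent.PDM.H41
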