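import Pool.Agent.PDM.Stmts

/-!
# PDM, row TOT
-/

set_option autoImplicit false

namespace Pool.Agent.PDM.H41

open Pool.Agent.PDN Pool.Agent.PDM

/-- indicator of the elements -/
def ia {t : ℕ} {τ : Ins t} : Big τ → ℕ
  | Sum.inl _ => 1
  | Sum.inr _ => 0

/-- indicator of the four vertices `E` -/
def ie {t : ℕ} {τ : Ins t} : Big τ → ℕ
  | Sum.inl _ => 0
  | Sum.inr (Sum.inl _) => 0
  | Sum.inr (Sum.inr (Sum.inl _)) => 1
  | Sum.inr (Sum.inr (Sum.inr _)) => 0

/-- `1` for the elements, `3` for the triples -/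
def ic {t : ℕ} {τ : Ins t} : Big τ → ℕ
  | Sum.inl _ => 1
  | Sum.inr (Sum.inl _) => 3
  | Sum.inr (Sum.inr _) => 0

theorem sum_val {t : ℕ} (τ : Ins t) :
    ∑ v : Big τ, val v = sA t + (sC τ + (8 + ((4 * t + 4) * vD t + vZ τ))) := by
  rw [Fintype.sum_sum_type, Fintype.sum_sum_type, Fintype.sum_sum_type, Fintype.sum_sum_type]
  have e1 : ∑ x : Fin 3 × Fin t, val (τ := τ) (Sum.inl x) = sA t := by
    rw [Fintype.sum_prod_type]
    rfl
  have e2 : ∑ p : ↥τ, val (τ := τ) (Sum.inr (Sum.inl p)) = sC τ := by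
    show ∑ p : ↥τ, vC p.1 = sC τ
    exact Finset.sum_coe_sort τ vC
  have e3 : ∑ x : Fin 2 × Bool, val (τ := τ) (Sum.inr (Sum.inr (Sum.inl x))) = 8 := by
    show ∑ x : Fin 2 × Bool, (if x.1 = 0 then 1 else 3) = 8
    rfl
  have e4 : ∑ k : Fin (4 * t + 4), val (τ := τ) (Sum.inr (Sum.inr (Sum.inr (Sum.inl k)))) =
      (4 * t + 4) * vD t := by
    show ∑ k : Fin (4 * t + 4), vD t = _
    rw [Finset.sum_const, Finset.card_univ, Fintype.card_fin, smul_eq_mul]
  have e5 : ∑ u : Unit, val (τ := τ) (Sum.inr (Sum.inr (Sum.inr (Sum.inr u)))) = vZ τ := by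
    show ∑ u : Unit, vZ τ = vZ τ
    rw [Finset.sum_const, Finset.card_univ, Fintype.card_unit, one_smul]
  rw [e1, e2, e3, e4, e5]

theorem sum_ia {t : ℕ} (τ : Ins t) : ∑ v : Big τ, ia v = 3 * t := by
  rw [Fintype.sum_sum_type]
  show ∑ x : Fin 3 × Fin t, 1 + ∑ y : ↥τ ⊕ ((Fin 2 × Bool) ⊕ (Fin (4 * t + 4) ⊕ Unit)), 0 = 3 * t
  rw [Finset.sum_const_zero, Finset.sum_const, Finset.card_univ, Fintype.card_prod,
    Fintype.card_fin, Fintype.card_fin, smul_eq_mul, mul_one, add_zero]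

theorem sum_ie {t : ℕ} (τ : Ins t) : ∑ v : Big τ, ie v = 4 := by
  rw [Fintype.sum_sum_type, Fintype.sum_sum_type, Fintype.sum_sum_type]
  show ∑ x : Fin 3 × Fin t, 0 + (∑ y : ↥τ, 0 + (∑ x : Fin 2 × Bool, 1 +
    ∑ z : Fin (4 * t + 4) ⊕ Unit, 0)) = 4
  rw [Finset.sum_const_zero, Finset.sum_const_zero, Finset.sum_const_zero]
  rfl

theorem tot (sid : SidStmt) : TotStmt := by
  intro t τ K hz hK
  have hc : ∀ x : Fin 3 × Fin t, code x.1 x.2 < bs t ^ 6 := (sid t).1
  have h1 := Finset.add_sum_erase K val hz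
  have h2 := Finset.sum_add_sum_compl K (fun v => val v)
  have h3 := sum_val τ
  have h4 : val (zz : Big τ) = vZ τ := rfl
  have h5 : sC τ + (4 * t + 4) * vD t ≤ vZ τ + sA t := by
    unfold vZ
    omega
  have h6 : ∑ v ∈ Kᶜ, val v ≤ 2 * sA t + 8 := by
    generalize (4 * t + 4) * vD t = D at *
    omega
  have h7 : ∀ v ∈ Kᶜ, val v ≤ 2 * sA t + 8 := fun v hv =>
    (Finset.single_le_sum (fun _ _ => Nat.zero_le _) hv).trans h6
  refine ⟨fun k => ?_, ?_⟩
  · by_contra hk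
    have h8 := h7 (dm k) (Finset.mem_compl.2 hk)
    have h9 : val (dm k : Big τ) = 2 * sA t + 9 := rfl
    omega
  -- the bound for the elements and triples
  have hb : 1 ≤ bs t ^ 6 := Nat.one_le_pow _ _ (by unfold bs; positivity)
  have hs : sA t ≤ 3 * t * (8 * (off t + bs t ^ 6)) := by
    unfold sA
    calc ∑ k : Fin 3, ∑ i : Fin t, vA k i ≤ ∑ k : Fin 3, ∑ i : Fin t, 8 * (off t + bs t ^ 6) := by
          refine Finset.sum_le_sum fun k _ => Finset.sum_le_sum fun i _ => ?_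
          unfold vA
          have := hc (k, i)
          simp only at this
          omega
      _ = 3 * t * (8 * (off t + bs t ^ 6)) := by
          rw [Finset.sum_const, Finset.sum_const, Finset.card_univ, Finset.card_univ,
            Fintype.card_fin, Fintype.card_fin, smul_eq_mul, smul_eq_mul, mul_assoc]
  have hX : ∑ v ∈ Kᶜ, ic v ≤ 6 * t := by
    have g1 : 8 * off t * ∑ v ∈ Kᶜ, ic v ≤ ∑ v ∈ Kᶜ, val v := by
      rw [Finset.mul_sum]
      refine Finset.sum_le_sum fun v _ => ?_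
      rcases v with x | p | x | k | u
      · show 8 * off t * 1 ≤ vA x.1 x.2
        unfold vA
        rw [mul_one]
        exact Nat.mul_le_mul_left _ (Nat.le_add_right _ _)
      · show 8 * off t * 3 ≤ vC p.1
        unfold vC vA
        omega
      · show 8 * off t * 0 ≤ _
        exact Nat.zero_le _
      · show 8 * off t * 0 ≤ _
        exact Nat.zero_le _
      · show 8 * off t * 0 ≤ _
        exact Nat.zero_le _
    have g2 : off t = 8 * (t + 1) * bs t ^ 6 := rfl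
    have g3 : 8 * off t * ∑ v ∈ Kᶜ, ic v < 8 * off t * (6 * t + 1) := by
      refine (g1.trans h6).trans_lt ?_
      calc 2 * sA t + 8 ≤ 2 * (3 * t * (8 * (off t + bs t ^ 6))) + 8 * bs t ^ 6 := by omega
        _ = 8 * off t * (6 * t) + (48 * t + 8) * bs t ^ 6 := by ring
        _ < 8 * off t * (6 * t) + 8 * off t := by
            have : (48 * t + 8) * bs t ^ 6 < 8 * off t := by
              rw [g2]
              calc (48 * t + 8) * bs t ^ 6 < (64 * (t + 1)) * bs t ^ 6 :=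
                    Nat.mul_lt_mul_of_pos_right (by omega) (by omega)
                _ = 8 * (8 * (t + 1) * bs t ^ 6) := by ring
            omega
        _ = 8 * off t * (6 * t + 1) := by ring
    have g4 := lt_of_mul_lt_mul_left g3 (Nat.zero_le _)
    omega
  have hw : ∀ v : Big τ, 3 * wt v = 4 * ic v + 2 * ia v + 15 * ie v := by
    intro v
    rcases v with x | p | x | k | u <;> rfl
  have hW : 3 * ∑ v ∈ Kᶜ, wt v =
      4 * ∑ v ∈ Kᶜ, ic v + 2 * ∑ v ∈ Kᶜ, ia v + 15 * ∑ v ∈ Kᶜ, ie v := by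
    rw [Finset.mul_sum, Finset.mul_sum, Finset.mul_sum, Finset.mul_sum,
      ← Finset.sum_add_distrib, ← Finset.sum_add_distrib]
    exact Finset.sum_congr rfl fun v _ => hw v
  have hA : ∑ v ∈ Kᶜ, ia v ≤ 3 * t :=
    (Finset.sum_le_sum_of_subset (Finset.subset_univ _)).trans (sum_ia τ).le
  have hE : ∑ v ∈ Kᶜ, ie v ≤ 4 :=
    (Finset.sum_le_sum_of_subset (Finset.subset_univ _)).trans (sum_ie τ).le
  refine ⟨by omega, fun heq x hx => ?_⟩
  have k1 : Kᶜ ⊆ Finset.univ.erase (el x : Big τ) := by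
    intro v hv
    rw [Finset.mem_erase]
    refine ⟨?_, Finset.mem_univ _⟩
    rintro rfl
    exact (Finset.mem_compl.1 hv) hx
  have k2 : ∑ v ∈ Kᶜ, ia v ≤ ∑ v ∈ Finset.univ.erase (el x : Big τ), ia v :=
    Finset.sum_le_sum_of_subset k1
  have k3 := Finset.add_sum_erase Finset.univ (fun v : Big τ => ia v) (Finset.mem_univ (el x))
  have k4 : ia (el x : Big τ) = 1 := rfl
  have k5 := sum_ia τ
  simp only [k4] at k3
  omega

end Pool.Agent.PDM.H41
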